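import Mathlib

/-!
# Pairwise intersecting hulls with finite triple intersections: more hulls than points

Six points of the plane, no three on a line, and an admissible family of seven subsets, none of whose
hulls contains another one. (If nested hulls are allowed then already the corners of a triangle and a
point inside it have an admissible family of six subsets, the three sides and the three triangles with
apex at the inner point; the point of the example below is that it does not use nested hulls.)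
-/

set_option autoImplicit false

namespace Pool.Agent.Results.MP_a31168_co.MoreHullsThanPoints

open Set

/-- `S 0, …, S (m - 1)` is an admissible family of subsets of the finite planar set `P`: the sets are
distinct subsets of `P` with more than one and fewer than `|P|` elements, any two of their convex
hulls intersect, and any three of the hulls share only points of `P`. -/
structure Admissible (P : Finset (ℝ × ℝ)) {m : ℕ} (S : Fin m → Finset (ℝ × ℝ)) : Prop where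
  injective : Function.Injective S
  subset : ∀ i, S i ⊆ P
  one_lt_card : ∀ i, 1 < (S i).card
  card_lt : ∀ i, (S i).card < P.card
  pairwise : ∀ i j, i ≠ j →
    (convexHull ℝ (S i : Set (ℝ × ℝ)) ∩ convexHull ℝ (S j : Set (ℝ × ℝ))).Nonempty
  triple : ∀ i j k, i ≠ j → i ≠ k → j ≠ k →
    convexHull ℝ (S i : Set (ℝ × ℝ)) ∩ convexHull ℝ (S j : Set (ℝ × ℝ)) ∩
      convexHull ℝ (S k : Set (ℝ × ℝ)) ⊆ (P : Set (ℝ × ℝ))

/-- No three points of `P` lie on a line. -/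
def GeneralPosition (P : Finset (ℝ × ℝ)) : Prop :=
  ∀ p ∈ P, ∀ q ∈ P, ∀ r ∈ P, p ≠ q → p ≠ r → q ≠ r → ¬ Collinear ℝ {p, q, r}

theorem hull_le {T : Finset (ℝ × ℝ)} {a b c : ℝ} (h : ∀ p ∈ T, a * p.1 + b * p.2 ≤ c) {x : ℝ × ℝ}
    (hx : x ∈ convexHull ℝ (T : Set (ℝ × ℝ))) : a * x.1 + b * x.2 ≤ c := by
  have hconv : Convex ℝ {x : ℝ × ℝ | a * x.1 + b * x.2 ≤ c} := by
    intro u hu v hv s t hs ht hst
    change a * u.1 + b * u.2 ≤ c at hu
    change a * v.1 + b * v.2 ≤ c at hv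
    change a * (s * u.1 + t * v.1) + b * (s * u.2 + t * v.2) ≤ c
    have e : c = s * c + t * c := by rw [← add_mul, hst, one_mul]
    rw [e]
    nlinarith [mul_le_mul_of_nonneg_left hu hs, mul_le_mul_of_nonneg_left hv ht]
  exact convexHull_min (fun p hp => h p hp) hconv hx

theorem common_vertex {T U : Finset (ℝ × ℝ)} (p : ℝ × ℝ) (h1 : p ∈ T) (h2 : p ∈ U) :
    (convexHull ℝ (T : Set (ℝ × ℝ)) ∩ convexHull ℝ (U : Set (ℝ × ℝ))).Nonempty :=
  ⟨p, subset_convexHull ℝ _ h1, subset_convexHull ℝ _ h2⟩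

/-- Collinear triples have vanishing determinant. -/
theorem det_of_collinear {p q r : ℝ × ℝ} (h : Collinear ℝ {p, q, r}) :
    (q.1 - p.1) * (r.2 - p.2) - (q.2 - p.2) * (r.1 - p.1) = 0 := by
  rw [collinear_iff_of_mem (p₀ := p) (by simp)] at h
  obtain ⟨v, hv⟩ := h
  obtain ⟨s, hs⟩ := hv q (by simp)
  obtain ⟨t, ht⟩ := hv r (by simp)
  have e1 : q.1 = s * v.1 + p.1 := by rw [hs]; simp
  have e2 : q.2 = s * v.2 + p.2 := by rw [hs]; simp
  have e3 : r.1 = t * v.1 + p.1 := by rw [ht]; simp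
  have e4 : r.2 = t * v.2 + p.2 := by rw [ht]; simp
  rw [e1, e2, e3, e4]
  ring

namespace Six

/-- the six points -/
noncomputable def P : Finset (ℝ × ℝ) :=
  {(3, 10), (10, 7), (11, 7), (12, 5), (12, 10), (13, 0)}

/-- the seven subsets -/
noncomputable def S : Fin 7 → Finset (ℝ × ℝ) :=
  ![{(3, 10), (12, 5)},
    {(10, 7), (11, 7), (12, 5)},
    {(3, 10), (10, 7), (12, 10)},
    {(3, 10), (11, 7), (12, 10)},
    {(11, 7), (12, 5), (12, 10)},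
    {(10, 7), (11, 7), (13, 0)},
    {(12, 5), (12, 10), (13, 0)}]

theorem hull0 {x : ℝ × ℝ} (hx : x ∈ convexHull ℝ (S 0 : Set (ℝ × ℝ))) :
    (5 : ℝ) * x.1 + (9 : ℝ) * x.2 ≤ 105 ∧
    (-5 : ℝ) * x.1 + (-9 : ℝ) * x.2 ≤ -105 ∧
    (9 : ℝ) * x.1 + (-5 : ℝ) * x.2 ≤ 83 ∧
    (-9 : ℝ) * x.1 + (5 : ℝ) * x.2 ≤ 23 := by
  refine ⟨?_, ?_, ?_, ?_⟩ <;>
    · refine hull_le ?_ hx
      intro p hp
      simp only [S, Fin.isValue, Matrix.cons_val, Finset.mem_insert, Finset.mem_singleton] at hp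
      rcases hp with rfl | rfl <;> norm_num

theorem hull1 {x : ℝ × ℝ} (hx : x ∈ convexHull ℝ (S 1 : Set (ℝ × ℝ))) :
    (-2 : ℝ) * x.1 + (-2 : ℝ) * x.2 ≤ -34 ∧
    (2 : ℝ) * x.1 + (1 : ℝ) * x.2 ≤ 29 ∧
    (0 : ℝ) * x.1 + (1 : ℝ) * x.2 ≤ 7 := by
  refine ⟨?_, ?_, ?_⟩ <;>
    · refine hull_le ?_ hx
      intro p hp
      simp only [S, Fin.isValue, Matrix.cons_val, Finset.mem_insert, Finset.mem_singleton] at hp
      rcases hp with rfl | rfl | rfl <;> norm_num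

theorem hull2 {x : ℝ × ℝ} (hx : x ∈ convexHull ℝ (S 2 : Set (ℝ × ℝ))) :
    (-3 : ℝ) * x.1 + (-7 : ℝ) * x.2 ≤ -79 ∧
    (3 : ℝ) * x.1 + (-2 : ℝ) * x.2 ≤ 16 ∧
    (0 : ℝ) * x.1 + (9 : ℝ) * x.2 ≤ 90 := by
  refine ⟨?_, ?_, ?_⟩ <;>
    · refine hull_le ?_ hx
      intro p hp
      simp only [S, Fin.isValue, Matrix.cons_val, Finset.mem_insert, Finset.mem_singleton] at hp
      rcases hp with rfl | rfl | rfl <;> norm_num

theorem hull3 {x : ℝ × ℝ} (hx : x ∈ convexHull ℝ (S 3 : Set (ℝ × ℝ))) :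
    (-3 : ℝ) * x.1 + (-8 : ℝ) * x.2 ≤ -89 ∧
    (3 : ℝ) * x.1 + (-1 : ℝ) * x.2 ≤ 26 ∧
    (0 : ℝ) * x.1 + (9 : ℝ) * x.2 ≤ 90 := by
  refine ⟨?_, ?_, ?_⟩ <;>
    · refine hull_le ?_ hx
      intro p hp
      simp only [S, Fin.isValue, Matrix.cons_val, Finset.mem_insert, Finset.mem_singleton] at hp
      rcases hp with rfl | rfl | rfl <;> norm_num

theorem hull4 {x : ℝ × ℝ} (hx : x ∈ convexHull ℝ (S 4 : Set (ℝ × ℝ))) :
    (-2 : ℝ) * x.1 + (-1 : ℝ) * x.2 ≤ -29 ∧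
    (5 : ℝ) * x.1 + (0 : ℝ) * x.2 ≤ 60 ∧
    (-3 : ℝ) * x.1 + (1 : ℝ) * x.2 ≤ -26 := by
  refine ⟨?_, ?_, ?_⟩ <;>
    · refine hull_le ?_ hx
      intro p hp
      simp only [S, Fin.isValue, Matrix.cons_val, Finset.mem_insert, Finset.mem_singleton] at hp
      rcases hp with rfl | rfl | rfl <;> norm_num

theorem hull5 {x : ℝ × ℝ} (hx : x ∈ convexHull ℝ (S 5 : Set (ℝ × ℝ))) :
    (-7 : ℝ) * x.1 + (-3 : ℝ) * x.2 ≤ -91 ∧
    (7 : ℝ) * x.1 + (2 : ℝ) * x.2 ≤ 91 ∧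
    (0 : ℝ) * x.1 + (1 : ℝ) * x.2 ≤ 7 := by
  refine ⟨?_, ?_, ?_⟩ <;>
    · refine hull_le ?_ hx
      intro p hp
      simp only [S, Fin.isValue, Matrix.cons_val, Finset.mem_insert, Finset.mem_singleton] at hp
      rcases hp with rfl | rfl | rfl <;> norm_num

theorem hull6 {x : ℝ × ℝ} (hx : x ∈ convexHull ℝ (S 6 : Set (ℝ × ℝ))) :
    (-5 : ℝ) * x.1 + (-1 : ℝ) * x.2 ≤ -65 ∧
    (10 : ℝ) * x.1 + (1 : ℝ) * x.2 ≤ 130 ∧
    (-5 : ℝ) * x.1 + (0 : ℝ) * x.2 ≤ -60 := by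
  refine ⟨?_, ?_, ?_⟩ <;>
    · refine hull_le ?_ hx
      intro p hp
      simp only [S, Fin.isValue, Matrix.cons_val, Finset.mem_insert, Finset.mem_singleton] at hp
      rcases hp with rfl | rfl | rfl <;> norm_num

theorem tri012 {x : ℝ × ℝ} (h1 : x ∈ convexHull ℝ (S 0 : Set (ℝ × ℝ)))
    (h2 : x ∈ convexHull ℝ (S 1 : Set (ℝ × ℝ))) (h3 : x ∈ convexHull ℝ (S 2 : Set (ℝ × ℝ))) : x ∈ P := by
  have a := hull0 h1
  have b := hull1 h2
  have c := hull2 h3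
  exfalso
  linarith [a.1, a.2.1, a.2.2.1, a.2.2.2, b.1, b.2.1, b.2.2, c.1, c.2.1, c.2.2]

theorem tri013 {x : ℝ × ℝ} (h1 : x ∈ convexHull ℝ (S 0 : Set (ℝ × ℝ)))
    (h2 : x ∈ convexHull ℝ (S 1 : Set (ℝ × ℝ))) (h3 : x ∈ convexHull ℝ (S 3 : Set (ℝ × ℝ))) : x ∈ P := by
  have a := hull0 h1
  have b := hull1 h2
  have c := hull3 h3
  exfalso
  linarith [a.1, a.2.1, a.2.2.1, a.2.2.2, b.1, b.2.1, b.2.2, c.1, c.2.1, c.2.2]

theorem tri014 {x : ℝ × ℝ} (h1 : x ∈ convexHull ℝ (S 0 : Set (ℝ × ℝ)))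
    (h2 : x ∈ convexHull ℝ (S 1 : Set (ℝ × ℝ))) (h3 : x ∈ convexHull ℝ (S 4 : Set (ℝ × ℝ))) : x ∈ P := by
  have a := hull0 h1
  have b := hull1 h2
  have c := hull4 h3
  have e1 : x.1 = 12 := le_antisymm (by linarith [a.1, a.2.1, a.2.2.1, a.2.2.2, b.1, b.2.1, b.2.2, c.1, c.2.1, c.2.2])
    (by linarith [a.1, a.2.1, a.2.2.1, a.2.2.2, b.1, b.2.1, b.2.2, c.1, c.2.1, c.2.2])
  have e2 : x.2 = 5 := le_antisymm (by linarith [a.1, a.2.1, a.2.2.1, a.2.2.2, b.1, b.2.1, b.2.2, c.1, c.2.1, c.2.2])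
    (by linarith [a.1, a.2.1, a.2.2.1, a.2.2.2, b.1, b.2.1, b.2.2, c.1, c.2.1, c.2.2])
  have e : x = (12, 5) := Prod.ext e1 e2
  rw [e]
  simp [P]

theorem tri015 {x : ℝ × ℝ} (h1 : x ∈ convexHull ℝ (S 0 : Set (ℝ × ℝ)))
    (h2 : x ∈ convexHull ℝ (S 1 : Set (ℝ × ℝ))) (h3 : x ∈ convexHull ℝ (S 5 : Set (ℝ × ℝ))) : x ∈ P := by
  have a := hull0 h1
  have b := hull1 h2
  have c := hull5 h3
  exfalso
  linarith [a.1, a.2.1, a.2.2.1, a.2.2.2, b.1, b.2.1, b.2.2, c.1, c.2.1, c.2.2]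

theorem tri016 {x : ℝ × ℝ} (h1 : x ∈ convexHull ℝ (S 0 : Set (ℝ × ℝ)))
    (h2 : x ∈ convexHull ℝ (S 1 : Set (ℝ × ℝ))) (h3 : x ∈ convexHull ℝ (S 6 : Set (ℝ × ℝ))) : x ∈ P := by
  have a := hull0 h1
  have b := hull1 h2
  have c := hull6 h3
  have e1 : x.1 = 12 := le_antisymm (by linarith [a.1, a.2.1, a.2.2.1, a.2.2.2, b.1, b.2.1, b.2.2, c.1, c.2.1, c.2.2])
    (by linarith [a.1, a.2.1, a.2.2.1, a.2.2.2, b.1, b.2.1, b.2.2, c.1, c.2.1, c.2.2])
  have e2 : x.2 = 5 := le_antisymm (by linarith [a.1, a.2.1, a.2.2.1, a.2.2.2, b.1, b.2.1, b.2.2, c.1, c.2.1, c.2.2])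
    (by linarith [a.1, a.2.1, a.2.2.1, a.2.2.2, b.1, b.2.1, b.2.2, c.1, c.2.1, c.2.2])
  have e : x = (12, 5) := Prod.ext e1 e2
  rw [e]
  simp [P]

theorem tri023 {x : ℝ × ℝ} (h1 : x ∈ convexHull ℝ (S 0 : Set (ℝ × ℝ)))
    (h2 : x ∈ convexHull ℝ (S 2 : Set (ℝ × ℝ))) (h3 : x ∈ convexHull ℝ (S 3 : Set (ℝ × ℝ))) : x ∈ P := by
  have a := hull0 h1
  have b := hull2 h2
  have c := hull3 h3
  have e1 : x.1 = 3 := le_antisymm (by linarith [a.1, a.2.1, a.2.2.1, a.2.2.2, b.1, b.2.1, b.2.2, c.1, c.2.1, c.2.2])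
    (by linarith [a.1, a.2.1, a.2.2.1, a.2.2.2, b.1, b.2.1, b.2.2, c.1, c.2.1, c.2.2])
  have e2 : x.2 = 10 := le_antisymm (by linarith [a.1, a.2.1, a.2.2.1, a.2.2.2, b.1, b.2.1, b.2.2, c.1, c.2.1, c.2.2])
    (by linarith [a.1, a.2.1, a.2.2.1, a.2.2.2, b.1, b.2.1, b.2.2, c.1, c.2.1, c.2.2])
  have e : x = (3, 10) := Prod.ext e1 e2
  rw [e]
  simp [P]

theorem tri024 {x : ℝ × ℝ} (h1 : x ∈ convexHull ℝ (S 0 : Set (ℝ × ℝ)))
    (h2 : x ∈ convexHull ℝ (S 2 : Set (ℝ × ℝ))) (h3 : x ∈ convexHull ℝ (S 4 : Set (ℝ × ℝ))) : x ∈ P := by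
  have a := hull0 h1
  have b := hull2 h2
  have c := hull4 h3
  exfalso
  linarith [a.1, a.2.1, a.2.2.1, a.2.2.2, b.1, b.2.1, b.2.2, c.1, c.2.1, c.2.2]

theorem tri025 {x : ℝ × ℝ} (h1 : x ∈ convexHull ℝ (S 0 : Set (ℝ × ℝ)))
    (h2 : x ∈ convexHull ℝ (S 2 : Set (ℝ × ℝ))) (h3 : x ∈ convexHull ℝ (S 5 : Set (ℝ × ℝ))) : x ∈ P := by
  have a := hull0 h1
  have b := hull2 h2
  have c := hull5 h3
  exfalso
  linarith [a.1, a.2.1, a.2.2.1, a.2.2.2, b.1, b.2.1, b.2.2, c.1, c.2.1, c.2.2]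

theorem tri026 {x : ℝ × ℝ} (h1 : x ∈ convexHull ℝ (S 0 : Set (ℝ × ℝ)))
    (h2 : x ∈ convexHull ℝ (S 2 : Set (ℝ × ℝ))) (h3 : x ∈ convexHull ℝ (S 6 : Set (ℝ × ℝ))) : x ∈ P := by
  have a := hull0 h1
  have b := hull2 h2
  have c := hull6 h3
  exfalso
  linarith [a.1, a.2.1, a.2.2.1, a.2.2.2, b.1, b.2.1, b.2.2, c.1, c.2.1, c.2.2]

theorem tri034 {x : ℝ × ℝ} (h1 : x ∈ convexHull ℝ (S 0 : Set (ℝ × ℝ)))
    (h2 : x ∈ convexHull ℝ (S 3 : Set (ℝ × ℝ))) (h3 : x ∈ convexHull ℝ (S 4 : Set (ℝ × ℝ))) : x ∈ P := by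
  have a := hull0 h1
  have b := hull3 h2
  have c := hull4 h3
  exfalso
  linarith [a.1, a.2.1, a.2.2.1, a.2.2.2, b.1, b.2.1, b.2.2, c.1, c.2.1, c.2.2]

theorem tri035 {x : ℝ × ℝ} (h1 : x ∈ convexHull ℝ (S 0 : Set (ℝ × ℝ)))
    (h2 : x ∈ convexHull ℝ (S 3 : Set (ℝ × ℝ))) (h3 : x ∈ convexHull ℝ (S 5 : Set (ℝ × ℝ))) : x ∈ P := by
  have a := hull0 h1
  have b := hull3 h2
  have c := hull5 h3
  exfalso
  linarith [a.1, a.2.1, a.2.2.1, a.2.2.2, b.1, b.2.1, b.2.2, c.1, c.2.1, c.2.2]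

theorem tri036 {x : ℝ × ℝ} (h1 : x ∈ convexHull ℝ (S 0 : Set (ℝ × ℝ)))
    (h2 : x ∈ convexHull ℝ (S 3 : Set (ℝ × ℝ))) (h3 : x ∈ convexHull ℝ (S 6 : Set (ℝ × ℝ))) : x ∈ P := by
  have a := hull0 h1
  have b := hull3 h2
  have c := hull6 h3
  exfalso
  linarith [a.1, a.2.1, a.2.2.1, a.2.2.2, b.1, b.2.1, b.2.2, c.1, c.2.1, c.2.2]

theorem tri045 {x : ℝ × ℝ} (h1 : x ∈ convexHull ℝ (S 0 : Set (ℝ × ℝ)))
    (h2 : x ∈ convexHull ℝ (S 4 : Set (ℝ × ℝ))) (h3 : x ∈ convexHull ℝ (S 5 : Set (ℝ × ℝ))) : x ∈ P := by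
  have a := hull0 h1
  have b := hull4 h2
  have c := hull5 h3
  exfalso
  linarith [a.1, a.2.1, a.2.2.1, a.2.2.2, b.1, b.2.1, b.2.2, c.1, c.2.1, c.2.2]

theorem tri046 {x : ℝ × ℝ} (h1 : x ∈ convexHull ℝ (S 0 : Set (ℝ × ℝ)))
    (h2 : x ∈ convexHull ℝ (S 4 : Set (ℝ × ℝ))) (h3 : x ∈ convexHull ℝ (S 6 : Set (ℝ × ℝ))) : x ∈ P := by
  have a := hull0 h1
  have b := hull4 h2
  have c := hull6 h3
  have e1 : x.1 = 12 := le_antisymm (by linarith [a.1, a.2.1, a.2.2.1, a.2.2.2, b.1, b.2.1, b.2.2, c.1, c.2.1, c.2.2])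
    (by linarith [a.1, a.2.1, a.2.2.1, a.2.2.2, b.1, b.2.1, b.2.2, c.1, c.2.1, c.2.2])
  have e2 : x.2 = 5 := le_antisymm (by linarith [a.1, a.2.1, a.2.2.1, a.2.2.2, b.1, b.2.1, b.2.2, c.1, c.2.1, c.2.2])
    (by linarith [a.1, a.2.1, a.2.2.1, a.2.2.2, b.1, b.2.1, b.2.2, c.1, c.2.1, c.2.2])
  have e : x = (12, 5) := Prod.ext e1 e2
  rw [e]
  simp [P]

theorem tri056 {x : ℝ × ℝ} (h1 : x ∈ convexHull ℝ (S 0 : Set (ℝ × ℝ)))
    (h2 : x ∈ convexHull ℝ (S 5 : Set (ℝ × ℝ))) (h3 : x ∈ convexHull ℝ (S 6 : Set (ℝ × ℝ))) : x ∈ P := by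
  have a := hull0 h1
  have b := hull5 h2
  have c := hull6 h3
  exfalso
  linarith [a.1, a.2.1, a.2.2.1, a.2.2.2, b.1, b.2.1, b.2.2, c.1, c.2.1, c.2.2]

theorem tri123 {x : ℝ × ℝ} (h1 : x ∈ convexHull ℝ (S 1 : Set (ℝ × ℝ)))
    (h2 : x ∈ convexHull ℝ (S 2 : Set (ℝ × ℝ))) (h3 : x ∈ convexHull ℝ (S 3 : Set (ℝ × ℝ))) : x ∈ P := by
  have a := hull1 h1
  have b := hull2 h2
  have c := hull3 h3
  exfalso
  linarith [a.1, a.2.1, a.2.2, b.1, b.2.1, b.2.2, c.1, c.2.1, c.2.2]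

theorem tri124 {x : ℝ × ℝ} (h1 : x ∈ convexHull ℝ (S 1 : Set (ℝ × ℝ)))
    (h2 : x ∈ convexHull ℝ (S 2 : Set (ℝ × ℝ))) (h3 : x ∈ convexHull ℝ (S 4 : Set (ℝ × ℝ))) : x ∈ P := by
  have a := hull1 h1
  have b := hull2 h2
  have c := hull4 h3
  exfalso
  linarith [a.1, a.2.1, a.2.2, b.1, b.2.1, b.2.2, c.1, c.2.1, c.2.2]

theorem tri125 {x : ℝ × ℝ} (h1 : x ∈ convexHull ℝ (S 1 : Set (ℝ × ℝ)))
    (h2 : x ∈ convexHull ℝ (S 2 : Set (ℝ × ℝ))) (h3 : x ∈ convexHull ℝ (S 5 : Set (ℝ × ℝ))) : x ∈ P := by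
  have a := hull1 h1
  have b := hull2 h2
  have c := hull5 h3
  have e1 : x.1 = 10 := le_antisymm (by linarith [a.1, a.2.1, a.2.2, b.1, b.2.1, b.2.2, c.1, c.2.1, c.2.2])
    (by linarith [a.1, a.2.1, a.2.2, b.1, b.2.1, b.2.2, c.1, c.2.1, c.2.2])
  have e2 : x.2 = 7 := le_antisymm (by linarith [a.1, a.2.1, a.2.2, b.1, b.2.1, b.2.2, c.1, c.2.1, c.2.2])
    (by linarith [a.1, a.2.1, a.2.2, b.1, b.2.1, b.2.2, c.1, c.2.1, c.2.2])
  have e : x = (10, 7) := Prod.ext e1 e2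
  rw [e]
  simp [P]

theorem tri126 {x : ℝ × ℝ} (h1 : x ∈ convexHull ℝ (S 1 : Set (ℝ × ℝ)))
    (h2 : x ∈ convexHull ℝ (S 2 : Set (ℝ × ℝ))) (h3 : x ∈ convexHull ℝ (S 6 : Set (ℝ × ℝ))) : x ∈ P := by
  have a := hull1 h1
  have b := hull2 h2
  have c := hull6 h3
  exfalso
  linarith [a.1, a.2.1, a.2.2, b.1, b.2.1, b.2.2, c.1, c.2.1, c.2.2]

theorem tri134 {x : ℝ × ℝ} (h1 : x ∈ convexHull ℝ (S 1 : Set (ℝ × ℝ)))
    (h2 : x ∈ convexHull ℝ (S 3 : Set (ℝ × ℝ))) (h3 : x ∈ convexHull ℝ (S 4 : Set (ℝ × ℝ))) : x ∈ P := by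
  have a := hull1 h1
  have b := hull3 h2
  have c := hull4 h3
  have e1 : x.1 = 11 := le_antisymm (by linarith [a.1, a.2.1, a.2.2, b.1, b.2.1, b.2.2, c.1, c.2.1, c.2.2])
    (by linarith [a.1, a.2.1, a.2.2, b.1, b.2.1, b.2.2, c.1, c.2.1, c.2.2])
  have e2 : x.2 = 7 := le_antisymm (by linarith [a.1, a.2.1, a.2.2, b.1, b.2.1, b.2.2, c.1, c.2.1, c.2.2])
    (by linarith [a.1, a.2.1, a.2.2, b.1, b.2.1, b.2.2, c.1, c.2.1, c.2.2])
  have e : x = (11, 7) := Prod.ext e1 e2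
  rw [e]
  simp [P]

theorem tri135 {x : ℝ × ℝ} (h1 : x ∈ convexHull ℝ (S 1 : Set (ℝ × ℝ)))
    (h2 : x ∈ convexHull ℝ (S 3 : Set (ℝ × ℝ))) (h3 : x ∈ convexHull ℝ (S 5 : Set (ℝ × ℝ))) : x ∈ P := by
  have a := hull1 h1
  have b := hull3 h2
  have c := hull5 h3
  have e1 : x.1 = 11 := le_antisymm (by linarith [a.1, a.2.1, a.2.2, b.1, b.2.1, b.2.2, c.1, c.2.1, c.2.2])
    (by linarith [a.1, a.2.1, a.2.2, b.1, b.2.1, b.2.2, c.1, c.2.1, c.2.2])
  have e2 : x.2 = 7 := le_antisymm (by linarith [a.1, a.2.1, a.2.2, b.1, b.2.1, b.2.2, c.1, c.2.1, c.2.2])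
    (by linarith [a.1, a.2.1, a.2.2, b.1, b.2.1, b.2.2, c.1, c.2.1, c.2.2])
  have e : x = (11, 7) := Prod.ext e1 e2
  rw [e]
  simp [P]

theorem tri136 {x : ℝ × ℝ} (h1 : x ∈ convexHull ℝ (S 1 : Set (ℝ × ℝ)))
    (h2 : x ∈ convexHull ℝ (S 3 : Set (ℝ × ℝ))) (h3 : x ∈ convexHull ℝ (S 6 : Set (ℝ × ℝ))) : x ∈ P := by
  have a := hull1 h1
  have b := hull3 h2
  have c := hull6 h3
  exfalso
  linarith [a.1, a.2.1, a.2.2, b.1, b.2.1, b.2.2, c.1, c.2.1, c.2.2]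

theorem tri145 {x : ℝ × ℝ} (h1 : x ∈ convexHull ℝ (S 1 : Set (ℝ × ℝ)))
    (h2 : x ∈ convexHull ℝ (S 4 : Set (ℝ × ℝ))) (h3 : x ∈ convexHull ℝ (S 5 : Set (ℝ × ℝ))) : x ∈ P := by
  have a := hull1 h1
  have b := hull4 h2
  have c := hull5 h3
  have e1 : x.1 = 11 := le_antisymm (by linarith [a.1, a.2.1, a.2.2, b.1, b.2.1, b.2.2, c.1, c.2.1, c.2.2])
    (by linarith [a.1, a.2.1, a.2.2, b.1, b.2.1, b.2.2, c.1, c.2.1, c.2.2])
  have e2 : x.2 = 7 := le_antisymm (by linarith [a.1, a.2.1, a.2.2, b.1, b.2.1, b.2.2, c.1, c.2.1, c.2.2])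
    (by linarith [a.1, a.2.1, a.2.2, b.1, b.2.1, b.2.2, c.1, c.2.1, c.2.2])
  have e : x = (11, 7) := Prod.ext e1 e2
  rw [e]
  simp [P]

theorem tri146 {x : ℝ × ℝ} (h1 : x ∈ convexHull ℝ (S 1 : Set (ℝ × ℝ)))
    (h2 : x ∈ convexHull ℝ (S 4 : Set (ℝ × ℝ))) (h3 : x ∈ convexHull ℝ (S 6 : Set (ℝ × ℝ))) : x ∈ P := by
  have a := hull1 h1
  have b := hull4 h2
  have c := hull6 h3
  have e1 : x.1 = 12 := le_antisymm (by linarith [a.1, a.2.1, a.2.2, b.1, b.2.1, b.2.2, c.1, c.2.1, c.2.2])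
    (by linarith [a.1, a.2.1, a.2.2, b.1, b.2.1, b.2.2, c.1, c.2.1, c.2.2])
  have e2 : x.2 = 5 := le_antisymm (by linarith [a.1, a.2.1, a.2.2, b.1, b.2.1, b.2.2, c.1, c.2.1, c.2.2])
    (by linarith [a.1, a.2.1, a.2.2, b.1, b.2.1, b.2.2, c.1, c.2.1, c.2.2])
  have e : x = (12, 5) := Prod.ext e1 e2
  rw [e]
  simp [P]

theorem tri156 {x : ℝ × ℝ} (h1 : x ∈ convexHull ℝ (S 1 : Set (ℝ × ℝ)))
    (h2 : x ∈ convexHull ℝ (S 5 : Set (ℝ × ℝ))) (h3 : x ∈ convexHull ℝ (S 6 : Set (ℝ × ℝ))) : x ∈ P := by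
  have a := hull1 h1
  have b := hull5 h2
  have c := hull6 h3
  exfalso
  linarith [a.1, a.2.1, a.2.2, b.1, b.2.1, b.2.2, c.1, c.2.1, c.2.2]

theorem tri234 {x : ℝ × ℝ} (h1 : x ∈ convexHull ℝ (S 2 : Set (ℝ × ℝ)))
    (h2 : x ∈ convexHull ℝ (S 3 : Set (ℝ × ℝ))) (h3 : x ∈ convexHull ℝ (S 4 : Set (ℝ × ℝ))) : x ∈ P := by
  have a := hull2 h1
  have b := hull3 h2
  have c := hull4 h3
  have e1 : x.1 = 12 := le_antisymm (by linarith [a.1, a.2.1, a.2.2, b.1, b.2.1, b.2.2, c.1, c.2.1, c.2.2])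
    (by linarith [a.1, a.2.1, a.2.2, b.1, b.2.1, b.2.2, c.1, c.2.1, c.2.2])
  have e2 : x.2 = 10 := le_antisymm (by linarith [a.1, a.2.1, a.2.2, b.1, b.2.1, b.2.2, c.1, c.2.1, c.2.2])
    (by linarith [a.1, a.2.1, a.2.2, b.1, b.2.1, b.2.2, c.1, c.2.1, c.2.2])
  have e : x = (12, 10) := Prod.ext e1 e2
  rw [e]
  simp [P]

theorem tri235 {x : ℝ × ℝ} (h1 : x ∈ convexHull ℝ (S 2 : Set (ℝ × ℝ)))
    (h2 : x ∈ convexHull ℝ (S 3 : Set (ℝ × ℝ))) (h3 : x ∈ convexHull ℝ (S 5 : Set (ℝ × ℝ))) : x ∈ P := by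
  have a := hull2 h1
  have b := hull3 h2
  have c := hull5 h3
  exfalso
  linarith [a.1, a.2.1, a.2.2, b.1, b.2.1, b.2.2, c.1, c.2.1, c.2.2]

theorem tri236 {x : ℝ × ℝ} (h1 : x ∈ convexHull ℝ (S 2 : Set (ℝ × ℝ)))
    (h2 : x ∈ convexHull ℝ (S 3 : Set (ℝ × ℝ))) (h3 : x ∈ convexHull ℝ (S 6 : Set (ℝ × ℝ))) : x ∈ P := by
  have a := hull2 h1
  have b := hull3 h2
  have c := hull6 h3
  have e1 : x.1 = 12 := le_antisymm (by linarith [a.1, a.2.1, a.2.2, b.1, b.2.1, b.2.2, c.1, c.2.1, c.2.2])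
    (by linarith [a.1, a.2.1, a.2.2, b.1, b.2.1, b.2.2, c.1, c.2.1, c.2.2])
  have e2 : x.2 = 10 := le_antisymm (by linarith [a.1, a.2.1, a.2.2, b.1, b.2.1, b.2.2, c.1, c.2.1, c.2.2])
    (by linarith [a.1, a.2.1, a.2.2, b.1, b.2.1, b.2.2, c.1, c.2.1, c.2.2])
  have e : x = (12, 10) := Prod.ext e1 e2
  rw [e]
  simp [P]

theorem tri245 {x : ℝ × ℝ} (h1 : x ∈ convexHull ℝ (S 2 : Set (ℝ × ℝ)))
    (h2 : x ∈ convexHull ℝ (S 4 : Set (ℝ × ℝ))) (h3 : x ∈ convexHull ℝ (S 5 : Set (ℝ × ℝ))) : x ∈ P := by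
  have a := hull2 h1
  have b := hull4 h2
  have c := hull5 h3
  exfalso
  linarith [a.1, a.2.1, a.2.2, b.1, b.2.1, b.2.2, c.1, c.2.1, c.2.2]

theorem tri246 {x : ℝ × ℝ} (h1 : x ∈ convexHull ℝ (S 2 : Set (ℝ × ℝ)))
    (h2 : x ∈ convexHull ℝ (S 4 : Set (ℝ × ℝ))) (h3 : x ∈ convexHull ℝ (S 6 : Set (ℝ × ℝ))) : x ∈ P := by
  have a := hull2 h1
  have b := hull4 h2
  have c := hull6 h3
  have e1 : x.1 = 12 := le_antisymm (by linarith [a.1, a.2.1, a.2.2, b.1, b.2.1, b.2.2, c.1, c.2.1, c.2.2])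
    (by linarith [a.1, a.2.1, a.2.2, b.1, b.2.1, b.2.2, c.1, c.2.1, c.2.2])
  have e2 : x.2 = 10 := le_antisymm (by linarith [a.1, a.2.1, a.2.2, b.1, b.2.1, b.2.2, c.1, c.2.1, c.2.2])
    (by linarith [a.1, a.2.1, a.2.2, b.1, b.2.1, b.2.2, c.1, c.2.1, c.2.2])
  have e : x = (12, 10) := Prod.ext e1 e2
  rw [e]
  simp [P]

theorem tri256 {x : ℝ × ℝ} (h1 : x ∈ convexHull ℝ (S 2 : Set (ℝ × ℝ)))
    (h2 : x ∈ convexHull ℝ (S 5 : Set (ℝ × ℝ))) (h3 : x ∈ convexHull ℝ (S 6 : Set (ℝ × ℝ))) : x ∈ P := by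
  have a := hull2 h1
  have b := hull5 h2
  have c := hull6 h3
  exfalso
  linarith [a.1, a.2.1, a.2.2, b.1, b.2.1, b.2.2, c.1, c.2.1, c.2.2]

theorem tri345 {x : ℝ × ℝ} (h1 : x ∈ convexHull ℝ (S 3 : Set (ℝ × ℝ)))
    (h2 : x ∈ convexHull ℝ (S 4 : Set (ℝ × ℝ))) (h3 : x ∈ convexHull ℝ (S 5 : Set (ℝ × ℝ))) : x ∈ P := by
  have a := hull3 h1
  have b := hull4 h2
  have c := hull5 h3
  have e1 : x.1 = 11 := le_antisymm (by linarith [a.1, a.2.1, a.2.2, b.1, b.2.1, b.2.2, c.1, c.2.1, c.2.2])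
    (by linarith [a.1, a.2.1, a.2.2, b.1, b.2.1, b.2.2, c.1, c.2.1, c.2.2])
  have e2 : x.2 = 7 := le_antisymm (by linarith [a.1, a.2.1, a.2.2, b.1, b.2.1, b.2.2, c.1, c.2.1, c.2.2])
    (by linarith [a.1, a.2.1, a.2.2, b.1, b.2.1, b.2.2, c.1, c.2.1, c.2.2])
  have e : x = (11, 7) := Prod.ext e1 e2
  rw [e]
  simp [P]

theorem tri346 {x : ℝ × ℝ} (h1 : x ∈ convexHull ℝ (S 3 : Set (ℝ × ℝ)))
    (h2 : x ∈ convexHull ℝ (S 4 : Set (ℝ × ℝ))) (h3 : x ∈ convexHull ℝ (S 6 : Set (ℝ × ℝ))) : x ∈ P := by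
  have a := hull3 h1
  have b := hull4 h2
  have c := hull6 h3
  have e1 : x.1 = 12 := le_antisymm (by linarith [a.1, a.2.1, a.2.2, b.1, b.2.1, b.2.2, c.1, c.2.1, c.2.2])
    (by linarith [a.1, a.2.1, a.2.2, b.1, b.2.1, b.2.2, c.1, c.2.1, c.2.2])
  have e2 : x.2 = 10 := le_antisymm (by linarith [a.1, a.2.1, a.2.2, b.1, b.2.1, b.2.2, c.1, c.2.1, c.2.2])
    (by linarith [a.1, a.2.1, a.2.2, b.1, b.2.1, b.2.2, c.1, c.2.1, c.2.2])
  have e : x = (12, 10) := Prod.ext e1 e2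
  rw [e]
  simp [P]

theorem tri356 {x : ℝ × ℝ} (h1 : x ∈ convexHull ℝ (S 3 : Set (ℝ × ℝ)))
    (h2 : x ∈ convexHull ℝ (S 5 : Set (ℝ × ℝ))) (h3 : x ∈ convexHull ℝ (S 6 : Set (ℝ × ℝ))) : x ∈ P := by
  have a := hull3 h1
  have b := hull5 h2
  have c := hull6 h3
  exfalso
  linarith [a.1, a.2.1, a.2.2, b.1, b.2.1, b.2.2, c.1, c.2.1, c.2.2]

theorem tri456 {x : ℝ × ℝ} (h1 : x ∈ convexHull ℝ (S 4 : Set (ℝ × ℝ)))
    (h2 : x ∈ convexHull ℝ (S 5 : Set (ℝ × ℝ))) (h3 : x ∈ convexHull ℝ (S 6 : Set (ℝ × ℝ))) : x ∈ P := by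
  have a := hull4 h1
  have b := hull5 h2
  have c := hull6 h3
  exfalso
  linarith [a.1, a.2.1, a.2.2, b.1, b.2.1, b.2.2, c.1, c.2.1, c.2.2]

theorem triple_lt (i j k : Fin 7) (hij : i < j) (hjk : j < k) {x : ℝ × ℝ}
    (h1 : x ∈ convexHull ℝ (S i : Set (ℝ × ℝ))) (h2 : x ∈ convexHull ℝ (S j : Set (ℝ × ℝ)))
    (h3 : x ∈ convexHull ℝ (S k : Set (ℝ × ℝ))) : x ∈ P := by
  fin_cases i <;> fin_cases j <;> first | (exact absurd hij (by decide)) | skip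
  all_goals fin_cases k <;> first | (exact absurd hjk (by decide)) | skip
  · exact tri012 h1 h2 h3
  · exact tri013 h1 h2 h3
  · exact tri014 h1 h2 h3
  · exact tri015 h1 h2 h3
  · exact tri016 h1 h2 h3
  · exact tri023 h1 h2 h3
  · exact tri024 h1 h2 h3
  · exact tri025 h1 h2 h3
  · exact tri026 h1 h2 h3
  · exact tri034 h1 h2 h3
  · exact tri035 h1 h2 h3
  · exact tri036 h1 h2 h3
  · exact tri045 h1 h2 h3
  · exact tri046 h1 h2 h3
  · exact tri056 h1 h2 h3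
  · exact tri123 h1 h2 h3
  · exact tri124 h1 h2 h3
  · exact tri125 h1 h2 h3
  · exact tri126 h1 h2 h3
  · exact tri134 h1 h2 h3
  · exact tri135 h1 h2 h3
  · exact tri136 h1 h2 h3
  · exact tri145 h1 h2 h3
  · exact tri146 h1 h2 h3
  · exact tri156 h1 h2 h3
  · exact tri234 h1 h2 h3
  · exact tri235 h1 h2 h3
  · exact tri236 h1 h2 h3
  · exact tri245 h1 h2 h3
  · exact tri246 h1 h2 h3
  · exact tri256 h1 h2 h3
  · exact tri345 h1 h2 h3
  · exact tri346 h1 h2 h3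
  · exact tri356 h1 h2 h3
  · exact tri456 h1 h2 h3

theorem triple_mem (i j k : Fin 7) (hij : i ≠ j) (hik : i ≠ k) (hjk : j ≠ k) {x : ℝ × ℝ}
    (h1 : x ∈ convexHull ℝ (S i : Set (ℝ × ℝ))) (h2 : x ∈ convexHull ℝ (S j : Set (ℝ × ℝ)))
    (h3 : x ∈ convexHull ℝ (S k : Set (ℝ × ℝ))) : x ∈ P := by
  rcases lt_or_gt_of_ne hij with a | a <;> rcases lt_or_gt_of_ne hik with b | b <;>
    rcases lt_or_gt_of_ne hjk with c | c
  · exact triple_lt i j k a c h1 h2 h3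
  · exact triple_lt i k j b c h1 h3 h2
  · exact absurd (a.trans c) (not_lt.2 b.le)
  · exact triple_lt k i j b a h3 h1 h2
  · exact triple_lt j i k a b h2 h1 h3
  · exact absurd (a.trans b) (not_lt.2 c.le)
  · exact triple_lt j k i c b h2 h3 h1
  · exact triple_lt k j i c a h3 h2 h1

theorem pair05 :
    (convexHull ℝ (S 0 : Set (ℝ × ℝ)) ∩ convexHull ℝ (S 5 : Set (ℝ × ℝ))).Nonempty := by
  refine ⟨(21/2, 35/6), ?_, ?_⟩
  · have h1 : ((3, 10) : ℝ × ℝ) ∈ convexHull ℝ (S 0 : Set (ℝ × ℝ)) :=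
      subset_convexHull ℝ _ (by simp [S])
    have h2 : ((12, 5) : ℝ × ℝ) ∈ convexHull ℝ (S 0 : Set (ℝ × ℝ)) :=
      subset_convexHull ℝ _ (by simp [S])
    have h := convex_convexHull ℝ (S 0 : Set (ℝ × ℝ)) h1 h2 (a := 1/6) (b := 5/6)
      (by norm_num) (by norm_num) (by norm_num)
    convert h using 1
    ext <;> norm_num
  · have h1 : ((10, 7) : ℝ × ℝ) ∈ convexHull ℝ (S 5 : Set (ℝ × ℝ)) :=
      subset_convexHull ℝ _ (by simp [S])
    have h2 : ((13, 0) : ℝ × ℝ) ∈ convexHull ℝ (S 5 : Set (ℝ × ℝ)) :=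
      subset_convexHull ℝ _ (by simp [S])
    have h := convex_convexHull ℝ (S 5 : Set (ℝ × ℝ)) h1 h2 (a := 5/6) (b := 1/6)
      (by norm_num) (by norm_num) (by norm_num)
    convert h using 1
    ext <;> norm_num

theorem pair_lt (i j : Fin 7) (hij : i < j) :
    (convexHull ℝ (S i : Set (ℝ × ℝ)) ∩ convexHull ℝ (S j : Set (ℝ × ℝ))).Nonempty := by
  fin_cases i <;> fin_cases j <;> first | (exact absurd hij (by decide)) | skip
  · exact common_vertex (12, 5) (by simp [S]) (by simp [S])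
  · exact common_vertex (3, 10) (by simp [S]) (by simp [S])
  · exact common_vertex (3, 10) (by simp [S]) (by simp [S])
  · exact common_vertex (12, 5) (by simp [S]) (by simp [S])
  · exact pair05
  · exact common_vertex (12, 5) (by simp [S]) (by simp [S])
  · exact common_vertex (10, 7) (by simp [S]) (by simp [S])
  · exact common_vertex (11, 7) (by simp [S]) (by simp [S])
  · exact common_vertex (11, 7) (by simp [S]) (by simp [S])
  · exact common_vertex (10, 7) (by simp [S]) (by simp [S])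
  · exact common_vertex (12, 5) (by simp [S]) (by simp [S])
  · exact common_vertex (3, 10) (by simp [S]) (by simp [S])
  · exact common_vertex (12, 10) (by simp [S]) (by simp [S])
  · exact common_vertex (10, 7) (by simp [S]) (by simp [S])
  · exact common_vertex (12, 10) (by simp [S]) (by simp [S])
  · exact common_vertex (11, 7) (by simp [S]) (by simp [S])
  · exact common_vertex (11, 7) (by simp [S]) (by simp [S])
  · exact common_vertex (12, 10) (by simp [S]) (by simp [S])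
  · exact common_vertex (11, 7) (by simp [S]) (by simp [S])
  · exact common_vertex (12, 5) (by simp [S]) (by simp [S])
  · exact common_vertex (13, 0) (by simp [S]) (by simp [S])

theorem pair_ne (i j : Fin 7) (hij : i ≠ j) :
    (convexHull ℝ (S i : Set (ℝ × ℝ)) ∩ convexHull ℝ (S j : Set (ℝ × ℝ))).Nonempty := by
  rcases lt_or_gt_of_ne hij with a | a
  · exact pair_lt i j a
  · rw [inter_comm]
    exact pair_lt j i a

theorem not_sub (i j : Fin 7) (hij : i ≠ j) :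
    ¬ convexHull ℝ (S i : Set (ℝ × ℝ)) ⊆ convexHull ℝ (S j : Set (ℝ × ℝ)) := by
  intro h
  fin_cases i <;> fin_cases j <;> first | (exact absurd rfl hij) | skip
  · have a := hull1 (h (subset_convexHull ℝ _ (show ((3, 10) : ℝ × ℝ) ∈ _ by simp [S])))
    norm_num at a
  · have a := hull2 (h (subset_convexHull ℝ _ (show ((12, 5) : ℝ × ℝ) ∈ _ by simp [S])))
    norm_num at a
  · have a := hull3 (h (subset_convexHull ℝ _ (show ((12, 5) : ℝ × ℝ) ∈ _ by simp [S])))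
    norm_num at a
  · have a := hull4 (h (subset_convexHull ℝ _ (show ((3, 10) : ℝ × ℝ) ∈ _ by simp [S])))
    norm_num at a
  · have a := hull5 (h (subset_convexHull ℝ _ (show ((3, 10) : ℝ × ℝ) ∈ _ by simp [S])))
    norm_num at a
  · have a := hull6 (h (subset_convexHull ℝ _ (show ((3, 10) : ℝ × ℝ) ∈ _ by simp [S])))
    norm_num at a
  · have a := hull0 (h (subset_convexHull ℝ _ (show ((10, 7) : ℝ × ℝ) ∈ _ by simp [S])))
    norm_num at a
  · have a := hull2 (h (subset_convexHull ℝ _ (show ((11, 7) : ℝ × ℝ) ∈ _ by simp [S])))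
    norm_num at a
  · have a := hull3 (h (subset_convexHull ℝ _ (show ((10, 7) : ℝ × ℝ) ∈ _ by simp [S])))
    norm_num at a
  · have a := hull4 (h (subset_convexHull ℝ _ (show ((10, 7) : ℝ × ℝ) ∈ _ by simp [S])))
    norm_num at a
  · have a := hull5 (h (subset_convexHull ℝ _ (show ((12, 5) : ℝ × ℝ) ∈ _ by simp [S])))
    norm_num at a
  · have a := hull6 (h (subset_convexHull ℝ _ (show ((10, 7) : ℝ × ℝ) ∈ _ by simp [S])))
    norm_num at a
  · have a := hull0 (h (subset_convexHull ℝ _ (show ((10, 7) : ℝ × ℝ) ∈ _ by simp [S])))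
    norm_num at a
  · have a := hull1 (h (subset_convexHull ℝ _ (show ((3, 10) : ℝ × ℝ) ∈ _ by simp [S])))
    norm_num at a
  · have a := hull3 (h (subset_convexHull ℝ _ (show ((10, 7) : ℝ × ℝ) ∈ _ by simp [S])))
    norm_num at a
  · have a := hull4 (h (subset_convexHull ℝ _ (show ((3, 10) : ℝ × ℝ) ∈ _ by simp [S])))
    norm_num at a
  · have a := hull5 (h (subset_convexHull ℝ _ (show ((3, 10) : ℝ × ℝ) ∈ _ by simp [S])))
    norm_num at a
  · have a := hull6 (h (subset_convexHull ℝ _ (show ((3, 10) : ℝ × ℝ) ∈ _ by simp [S])))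
    norm_num at a
  · have a := hull0 (h (subset_convexHull ℝ _ (show ((11, 7) : ℝ × ℝ) ∈ _ by simp [S])))
    norm_num at a
  · have a := hull1 (h (subset_convexHull ℝ _ (show ((3, 10) : ℝ × ℝ) ∈ _ by simp [S])))
    norm_num at a
  · have a := hull2 (h (subset_convexHull ℝ _ (show ((11, 7) : ℝ × ℝ) ∈ _ by simp [S])))
    norm_num at a
  · have a := hull4 (h (subset_convexHull ℝ _ (show ((3, 10) : ℝ × ℝ) ∈ _ by simp [S])))
    norm_num at a
  · have a := hull5 (h (subset_convexHull ℝ _ (show ((3, 10) : ℝ × ℝ) ∈ _ by simp [S])))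
    norm_num at a
  · have a := hull6 (h (subset_convexHull ℝ _ (show ((3, 10) : ℝ × ℝ) ∈ _ by simp [S])))
    norm_num at a
  · have a := hull0 (h (subset_convexHull ℝ _ (show ((11, 7) : ℝ × ℝ) ∈ _ by simp [S])))
    norm_num at a
  · have a := hull1 (h (subset_convexHull ℝ _ (show ((12, 10) : ℝ × ℝ) ∈ _ by simp [S])))
    norm_num at a
  · have a := hull2 (h (subset_convexHull ℝ _ (show ((11, 7) : ℝ × ℝ) ∈ _ by simp [S])))
    norm_num at a
  · have a := hull3 (h (subset_convexHull ℝ _ (show ((12, 5) : ℝ × ℝ) ∈ _ by simp [S])))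
    norm_num at a
  · have a := hull5 (h (subset_convexHull ℝ _ (show ((12, 5) : ℝ × ℝ) ∈ _ by simp [S])))
    norm_num at a
  · have a := hull6 (h (subset_convexHull ℝ _ (show ((11, 7) : ℝ × ℝ) ∈ _ by simp [S])))
    norm_num at a
  · have a := hull0 (h (subset_convexHull ℝ _ (show ((10, 7) : ℝ × ℝ) ∈ _ by simp [S])))
    norm_num at a
  · have a := hull1 (h (subset_convexHull ℝ _ (show ((13, 0) : ℝ × ℝ) ∈ _ by simp [S])))
    norm_num at a
  · have a := hull2 (h (subset_convexHull ℝ _ (show ((11, 7) : ℝ × ℝ) ∈ _ by simp [S])))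
    norm_num at a
  · have a := hull3 (h (subset_convexHull ℝ _ (show ((10, 7) : ℝ × ℝ) ∈ _ by simp [S])))
    norm_num at a
  · have a := hull4 (h (subset_convexHull ℝ _ (show ((10, 7) : ℝ × ℝ) ∈ _ by simp [S])))
    norm_num at a
  · have a := hull6 (h (subset_convexHull ℝ _ (show ((10, 7) : ℝ × ℝ) ∈ _ by simp [S])))
    norm_num at a
  · have a := hull0 (h (subset_convexHull ℝ _ (show ((12, 10) : ℝ × ℝ) ∈ _ by simp [S])))
    norm_num at a
  · have a := hull1 (h (subset_convexHull ℝ _ (show ((12, 10) : ℝ × ℝ) ∈ _ by simp [S])))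
    norm_num at a
  · have a := hull2 (h (subset_convexHull ℝ _ (show ((12, 5) : ℝ × ℝ) ∈ _ by simp [S])))
    norm_num at a
  · have a := hull3 (h (subset_convexHull ℝ _ (show ((12, 5) : ℝ × ℝ) ∈ _ by simp [S])))
    norm_num at a
  · have a := hull4 (h (subset_convexHull ℝ _ (show ((13, 0) : ℝ × ℝ) ∈ _ by simp [S])))
    norm_num at a
  · have a := hull5 (h (subset_convexHull ℝ _ (show ((12, 5) : ℝ × ℝ) ∈ _ by simp [S])))
    norm_num at a

theorem inj : Function.Injective S := by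
  intro i j h
  by_contra hne
  exact not_sub i j hne (by rw [h])

theorem card_P : P.card = 6 := by
  unfold P
  rw [Finset.card_insert_of_notMem (by norm_num [Prod.ext_iff])]
  rw [Finset.card_insert_of_notMem (by norm_num [Prod.ext_iff])]
  rw [Finset.card_insert_of_notMem (by norm_num [Prod.ext_iff])]
  rw [Finset.card_insert_of_notMem (by norm_num [Prod.ext_iff])]
  rw [Finset.card_insert_of_notMem (by norm_num [Prod.ext_iff])]
  simp

theorem sub_P (i : Fin 7) : S i ⊆ P := by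
  intro p hp
  fin_cases i <;>
    simp only [S, Fin.isValue, Fin.reduceFinMk, Matrix.cons_val, Finset.mem_insert,
      Finset.mem_singleton, Fin.zero_eta, Fin.mk_one] at hp
  · rcases hp with rfl | rfl <;> simp [P]
  · rcases hp with rfl | rfl | rfl <;> simp [P]
  · rcases hp with rfl | rfl | rfl <;> simp [P]
  · rcases hp with rfl | rfl | rfl <;> simp [P]
  · rcases hp with rfl | rfl | rfl <;> simp [P]
  · rcases hp with rfl | rfl | rfl <;> simp [P]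
  · rcases hp with rfl | rfl | rfl <;> simp [P]

theorem cards (i : Fin 7) : 1 < (S i).card ∧ (S i).card < 6 := by
  fin_cases i
  · have e : (S 0).card = 2 := by
      simp only [S, Fin.isValue, Matrix.cons_val]
      rw [Finset.card_insert_of_notMem (by norm_num [Prod.ext_iff])]
      simp
    change 1 < (S 0).card ∧ (S 0).card < 6
    rw [e]
    norm_num
  · have e : (S 1).card = 3 := by
      simp only [S, Fin.isValue, Matrix.cons_val]
      rw [Finset.card_insert_of_notMem (by norm_num [Prod.ext_iff])]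
      rw [Finset.card_insert_of_notMem (by norm_num [Prod.ext_iff])]
      simp
    change 1 < (S 1).card ∧ (S 1).card < 6
    rw [e]
    norm_num
  · have e : (S 2).card = 3 := by
      simp only [S, Fin.isValue, Matrix.cons_val]
      rw [Finset.card_insert_of_notMem (by norm_num [Prod.ext_iff])]
      rw [Finset.card_insert_of_notMem (by norm_num [Prod.ext_iff])]
      simp
    change 1 < (S 2).card ∧ (S 2).card < 6
    rw [e]
    norm_num
  · have e : (S 3).card = 3 := by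
      simp only [S, Fin.isValue, Matrix.cons_val]
      rw [Finset.card_insert_of_notMem (by norm_num [Prod.ext_iff])]
      rw [Finset.card_insert_of_notMem (by norm_num [Prod.ext_iff])]
      simp
    change 1 < (S 3).card ∧ (S 3).card < 6
    rw [e]
    norm_num
  · have e : (S 4).card = 3 := by
      simp only [S, Fin.isValue, Matrix.cons_val]
      rw [Finset.card_insert_of_notMem (by norm_num [Prod.ext_iff])]
      rw [Finset.card_insert_of_notMem (by norm_num [Prod.ext_iff])]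
      simp
    change 1 < (S 4).card ∧ (S 4).card < 6
    rw [e]
    norm_num
  · have e : (S 5).card = 3 := by
      simp only [S, Fin.isValue, Matrix.cons_val]
      rw [Finset.card_insert_of_notMem (by norm_num [Prod.ext_iff])]
      rw [Finset.card_insert_of_notMem (by norm_num [Prod.ext_iff])]
      simp
    change 1 < (S 5).card ∧ (S 5).card < 6
    rw [e]
    norm_num
  · have e : (S 6).card = 3 := by
      simp only [S, Fin.isValue, Matrix.cons_val]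
      rw [Finset.card_insert_of_notMem (by norm_num [Prod.ext_iff])]
      rw [Finset.card_insert_of_notMem (by norm_num [Prod.ext_iff])]
      simp
    change 1 < (S 6).card ∧ (S 6).card < 6
    rw [e]
    norm_num

theorem admissible : Admissible P S where
  injective := inj
  subset := sub_P
  one_lt_card i := (cards i).1
  card_lt i := by rw [card_P]; exact (cards i).2
  pairwise := pair_ne
  triple i j k hij hik hjk := by
    rintro x ⟨⟨h1, h2⟩, h3⟩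
    exact triple_mem i j k hij hik hjk h1 h2 h3

end Six

theorem Six.gp : GeneralPosition Six.P := by
  intro p hp q hq r hr hpq hpr hqr hc
  have h := det_of_collinear hc
  simp only [Six.P, Finset.mem_insert, Finset.mem_singleton] at hp hq hr
  rcases hp with rfl | rfl | rfl | rfl | rfl | rfl <;>
    rcases hq with rfl | rfl | rfl | rfl | rfl | rfl <;> first | exact hpq rfl | skip
  all_goals rcases hr with rfl | rfl | rfl | rfl | rfl | rfl <;>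
    first | exact hpr rfl | exact hqr rfl | norm_num at h

/-- The bound `m ≤ n` for admissible families fails: there are `n = 6` points of the plane, no three
on a line, with an admissible family of `m = 7` subsets such that none of the seven convex hulls
contains another one. -/
theorem result :
    ∃ (P : Finset (ℝ × ℝ)) (S : Fin 7 → Finset (ℝ × ℝ)),
      P.card = 6 ∧ GeneralPosition P ∧ Admissible P S ∧
      ∀ i j, i ≠ j →
        ¬ convexHull ℝ (S i : Set (ℝ × ℝ)) ⊆ convexHull ℝ (S j : Set (ℝ × ℝ)) :=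
  ⟨Six.P, Six.S, Six.card_P, Six.gp, Six.admissible, Six.not_sub⟩

end Pool.Agent.Results.MP_a31168_co.MoreHullsThanPoints
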